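import Pool.Agent.Helper15.RA.GoalsR

/-!
Packet RA-XH (MP_cc6379_al): the Hecke algebra of a weighted Coxeter group exists.
-/

set_option autoImplicit false

open LaurentPolynomial

noncomputable section

namespace Pool.Agent.Helper64.RA

open Pool.Agent.Helper15.RA

section

variable {I W : Type} [Group W] {M : CoxeterMatrix I} (cs : CoxeterSystem M W)
  {A : Type} [CommRing A] (x : I → A)
  {E : Type} [AddCommGroup E] [Module A E] (b : Module.Basis W A E)

/-- `ξ_i` if `s_i w < w`, `0` otherwise. -/
def lam (i : I) (w : W) : A :=
  if cs.length (cs.simple i * w) < cs.length w then x i else 0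

/-- `ξ_j` if `w s_j < w`, `0` otherwise. -/
def eta (j : I) (w : W) : A :=
  if cs.length (w * cs.simple j) < cs.length w then x j else 0

/-- The operator `P_i`. -/
def PP (i : I) : Module.End A E :=
  b.constr A fun w => lam cs x i w • b w + b (cs.simple i * w)

/-- The operator `Q_j`. -/
def QQ (j : I) : Module.End A E :=
  b.constr A fun w => eta cs x j w • b w + b (w * cs.simple j)

theorem PP_ee (i : I) (w : W) :
    PP cs x b i (b w) = lam cs x i w • b w + b (cs.simple i * w) := by
  unfold PP
  rw [Module.Basis.constr_basis]

theorem QQ_ee (j : I) (w : W) :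
    QQ cs x b j (b w) = eta cs x j w • b w + b (w * cs.simple j) := by
  unfold QQ
  rw [Module.Basis.constr_basis]

/-- The condition on the parameters. -/
def Par : Prop := ∀ i j w, cs.simple i * w = w * cs.simple j →
  cs.length w < cs.length (cs.simple i * w) → x i = x j

theorem comm_aux (hX : X_E) (hL : Par cs x) (i j : I) (w : W) :
    eta cs x j w • b (cs.simple i * w) + lam cs x i (w * cs.simple j) • b (w * cs.simple j) =
      lam cs x i w • b (w * cs.simple j) +
        eta cs x j (cs.simple i * w) • b (cs.simple i * w) := by
  have hij : cs.simple i * (cs.simple i * w) = w := cs.simple_mul_simple_cancel_left i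
  by_cases h1 : cs.length (w * cs.simple j) < cs.length w
  · by_cases h2 : cs.length (cs.simple i * w * cs.simple j) < cs.length (cs.simple i * w)
    · -- both descents on the right
      have e1 : eta cs x j w = eta cs x j (cs.simple i * w) := by
        unfold eta
        rw [if_pos h1, if_pos h2]
      have e2 : lam cs x i (w * cs.simple j) = lam cs x i w := by
        unfold lam
        rw [← mul_assoc]
        have l1 := cs.length_mul_simple w j
        have l2 := cs.length_mul_simple (cs.simple i * w) j
        congr 1
        apply propext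
        omega
      rw [e1, e2]
      exact add_comm _ _
    · -- exchange for `s_i w`
      have h3 : cs.length (cs.simple i * w) < cs.length (cs.simple i * w * cs.simple j) := by
        rcases cs.length_mul_simple (cs.simple i * w) j with h4 | h4 <;> omega
      have h4 := hX I W M cs i j (cs.simple i * w) h3 (by rw [hij]; exact h1)
      rw [hij] at h4
      have h5 : cs.simple i * w = w * cs.simple j := by
        conv_lhs => rw [h4]
        rw [mul_assoc, ← mul_assoc (cs.simple i), cs.simple_mul_simple_self, one_mul]
      have h6 : cs.length (cs.simple i * w) < cs.length w := by rw [h5]; exact h1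
      have h7 : x i = x j := by
        refine hL i j (cs.simple i * w) ?_ ?_
        · rw [hij]
          exact h4
        · rw [hij]
          exact h6
      have e1 : eta cs x j w = x j := if_pos h1
      have e2 : eta cs x j (cs.simple i * w) = 0 := if_neg h2
      have e3 : lam cs x i w = x j := by
        unfold lam
        rw [if_pos h6, h7]
      have e4 : lam cs x i (w * cs.simple j) = 0 := by
        unfold lam
        rw [← h5, hij, if_neg (by omega)]
      rw [e1, e2, e3, e4, h5, zero_smul]
  · have h1' : cs.length w < cs.length (w * cs.simple j) := by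
      rcases cs.length_mul_simple w j with h4 | h4 <;> omega
    by_cases h2 : cs.length (cs.simple i * w * cs.simple j) < cs.length (cs.simple i * w)
    · have h5 := hX I W M cs i j w h1' h2
      have h6 : cs.length w < cs.length (cs.simple i * w) := by rw [h5]; exact h1'
      have h7 : x i = x j := hL i j w h5 h6
      have e1 : eta cs x j w = 0 := if_neg h1
      have e2 : eta cs x j (cs.simple i * w) = x j := if_pos h2
      have e3 : lam cs x i w = 0 := if_neg (by omega)
      have e4 : lam cs x i (w * cs.simple j) = x j := by
        unfold lam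
        rw [← h5, hij, if_pos h6, h7]
      rw [e1, e2, e3, e4, h5, zero_smul]
    · have e1 : eta cs x j w = eta cs x j (cs.simple i * w) := by
        unfold eta
        rw [if_neg h1, if_neg h2]
      have e2 : lam cs x i (w * cs.simple j) = lam cs x i w := by
        unfold lam
        rw [← mul_assoc]
        have l1 := cs.length_mul_simple w j
        have l2 := cs.length_mul_simple (cs.simple i * w) j
        congr 1
        apply propext
        omega
      rw [e1, e2]
      exact add_comm _ _

theorem PQ_comm (hX : X_E) (hL : Par cs x) (i j : I) :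
    PP cs x b i * QQ cs x b j = QQ cs x b j * PP cs x b i := by
  refine b.ext fun w => ?_
  show PP cs x b i (QQ cs x b j (b w)) = QQ cs x b j (PP cs x b i (b w))
  rw [QQ_ee, PP_ee, map_add, map_smul, map_add, map_smul, PP_ee, PP_ee, QQ_ee, QQ_ee]
  have h := comm_aux cs x b hX hL i j w
  rw [smul_add, smul_add, smul_smul, smul_smul, mul_comm (eta cs x j w), mul_assoc]
  rw [add_assoc, add_assoc, ← add_assoc (eta cs x j w • _), ← add_assoc (lam cs x i w • _), h]

/-- The Hecke algebra. -/
abbrev HH : Subalgebra A (Module.End A (E)) := Algebra.adjoin A (Set.range (PP cs x b))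

/-- The generator. -/
def gP (i : I) : HH cs x b := ⟨PP cs x b i, Algebra.subset_adjoin ⟨i, rfl⟩⟩

theorem HQ_comm (hX : X_E) (hL : Par cs x) (z : HH cs x b) (j : I) (v : E) :
    z.1 (QQ cs x b j v) = QQ cs x b j (z.1 v) := by
  have key : ∀ y ∈ HH cs x b, y * QQ cs x b j = QQ cs x b j * y := by
    intro y hy
    induction hy using Algebra.adjoin_induction with
    | mem y hy =>
      obtain ⟨i, rfl⟩ := hy
      exact PQ_comm cs x b hX hL i j
    | algebraMap r => exact Algebra.commutes r _
    | add y z _ _ hy hz => rw [add_mul, mul_add, hy, hz]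
    | mul y z _ _ hy hz => rw [mul_assoc, hz, ← mul_assoc, hy, mul_assoc]
  exact LinearMap.congr_fun (key z.1 z.2) v

/-- Evaluation at `e_1`. -/
def evl : HH cs x b →ₗ[A] (E) where
  toFun z := z.1 (b 1)
  map_add' _ _ := rfl
  map_smul' _ _ := rfl

theorem evl_apply (z : HH cs x b) : evl cs x b z = z.1 (b 1) := rfl

theorem evl_inj (hX : X_E) (hL : Par cs x) : Function.Injective (evl cs x b) := by
  rw [← LinearMap.ker_eq_bot, LinearMap.ker_eq_bot']
  intro z hx
  rw [evl_apply] at hx
  apply Subtype.ext
  refine b.ext fun w => ?_
  show z.1 (b w) = 0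
  induction w using cs.simple_induction_right with
  | one => exact hx
  | mul_simple_right w j ih =>
    have h1 := HQ_comm cs x b hX hL z j (b w)
    rw [QQ_ee, ih, map_zero, map_add, map_smul, ih, smul_zero, zero_add] at h1
    exact h1

theorem evl_surj : Function.Surjective (evl cs x b) := by
  rw [← LinearMap.range_eq_top, eq_top_iff]
  have h1 : ∀ w : W, b w ∈ LinearMap.range (evl cs x b) := by
    intro w
    induction w using cs.simple_induction_left with
    | one => exact ⟨1, rfl⟩
    | mul_simple_left w i ih =>
      obtain ⟨z, hz⟩ := ih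
      refine ⟨gP cs x b i * z - lam cs x i w • z, ?_⟩
      rw [map_sub, map_smul, hz]
      have h2 : evl cs x b (gP cs x b i * z) = PP cs x b i (evl cs x b z) := rfl
      rw [h2, hz, PP_ee, add_sub_cancel_left]
  rw [← b.span_eq, Submodule.span_le]
  rintro _ ⟨w, rfl⟩
  exact h1 w

include b in
/-- The basis. -/
theorem exists_alg (hX : X_E) (hL : Par cs x) :
    ∃ (H : Type) (_ : Ring H) (_ : Algebra A H) (t : Module.Basis W A H),
      (∀ w w', cs.length (w * w') = cs.length w + cs.length w' → t w * t w' = t (w * w')) ∧
      ∀ i, t (cs.simple i) * t (cs.simple i) = x i • t (cs.simple i) + 1 := by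
  let eq : HH cs x b ≃ₗ[A] E :=
    LinearEquiv.ofBijective (evl cs x b) ⟨evl_inj cs x b hX hL, evl_surj cs x b⟩
  let t : Module.Basis W A (HH cs x b) := b.map eq.symm
  have ht : ∀ w, (t w).1 (b 1) = b w := by
    intro w
    have h1 : eq (t w) = b w := by
      show eq ((b.map eq.symm) w) = b w
      rw [Module.Basis.map_apply, LinearEquiv.apply_symm_apply]
    exact h1
  have hinj : ∀ y z : HH cs x b, y.1 (b 1) = z.1 (b 1) → y = z := fun y z h =>
    evl_inj cs x b hX hL h
  -- `t w` on the basis
  have hmul : ∀ (n : ℕ) (w w' : W), cs.length w' = n →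
      cs.length (w * w') = cs.length w + cs.length w' → (t w).1 (b w') = b (w * w') := by
    intro n
    induction n with
    | zero =>
      intro w w' h1 _
      rw [cs.length_eq_zero_iff] at h1
      rw [h1, ht, mul_one]
    | succ n ih =>
      intro w w' h1 h2
      have hne : w' ≠ 1 := by
        intro h3
        rw [h3, cs.length_one] at h1
        omega
      obtain ⟨j, hj⟩ := cs.exists_rightDescent_of_ne_one hne
      have h3 : cs.length (w' * cs.simple j) + 1 = cs.length w' := cs.isRightDescent_iff.1 hj
      have h4 : w' * cs.simple j * cs.simple j = w' := cs.simple_mul_simple_cancel_right j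
      have h5 : w * (w' * cs.simple j) * cs.simple j = w * w' := by
        rw [mul_assoc, h4]
      have h6 : cs.length (w * (w' * cs.simple j)) = cs.length w + cs.length (w' * cs.simple j) := by
        have h7 := cs.length_mul_simple (w * (w' * cs.simple j)) j
        rw [h5] at h7
        have h8 := cs.length_mul_le w (w' * cs.simple j)
        omega
      have h7 := ih w (w' * cs.simple j) (by omega) h6
      have h8 := HQ_comm cs x b hX hL (t w) j (b (w' * cs.simple j))
      rw [h7, QQ_ee, QQ_ee, h4, h5] at h8
      have e1 : eta cs x j (w' * cs.simple j) = 0 := by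
        unfold eta
        rw [h4, if_neg (by omega)]
      have e2 : eta cs x j (w * (w' * cs.simple j)) = 0 := by
        unfold eta
        rw [h5, if_neg (by omega)]
      rw [e1, e2, zero_smul, zero_smul, zero_add, zero_add] at h8
      exact h8
  have e1 : ∀ i, lam cs x i 1 = 0 := by
    intro i
    unfold lam
    rw [mul_one, cs.length_one, if_neg (by omega)]
  have e3 : ∀ i, PP cs x b i (b 1) = b (cs.simple i) := by
    intro i
    rw [PP_ee, e1, zero_smul, zero_add, mul_one]
  have hs : ∀ i, t (cs.simple i) = gP cs x b i := by
    intro i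
    apply hinj
    rw [ht]
    exact (e3 i).symm
  refine ⟨HH cs x b, inferInstance, inferInstance, t, ?_, ?_⟩
  · intro w w' h
    apply hinj
    rw [ht]
    show (t w).1 ((t w').1 (b 1)) = _
    rw [ht]
    exact hmul _ w w' rfl h
  · intro i
    rw [hs]
    apply hinj
    have e2 : lam cs x i (cs.simple i) = x i := by
      unfold lam
      rw [cs.simple_mul_simple_self, cs.length_one, cs.length_simple, if_pos (by omega)]
    have e4 : PP cs x b i (b (cs.simple i)) = x i • b (cs.simple i) + b 1 := by
      rw [PP_ee, e2, cs.simple_mul_simple_self]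
    show PP cs x b i (PP cs x b i (b 1)) = x i • PP cs x b i (b 1) + b 1
    rw [e3, e4]

end

theorem h_xh (hX : X_E) : X_H := by
  intro I W _ M cs L hL
  have hP : Par cs (fun i => xi (L (cs.simple i))) := by
    intro i j w h hw
    have h1 : cs.length (cs.simple i * w) = cs.length (cs.simple i) + cs.length w := by
      rw [cs.length_simple]
      rcases cs.length_simple_mul w i with h2 | h2 <;> omega
    have h2 : cs.length (w * cs.simple j) = cs.length w + cs.length (cs.simple j) := by
      rw [← h, cs.length_simple]
      rcases cs.length_simple_mul w i with h2 | h2 <;> omega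
    have h3 := hL.add _ _ h1
    have h4 := hL.add _ _ h2
    rw [h] at h3
    have h5 : L (cs.simple i) = L (cs.simple j) := by omega
    show xi (L (cs.simple i)) = xi (L (cs.simple j))
    rw [h5]
  obtain ⟨H, iR, iA, t, h1, h2⟩ := exists_alg cs (fun i => xi (L (cs.simple i)))
    (Finsupp.basisSingleOne : Module.Basis W ℤ[T;T⁻¹] (W →₀ ℤ[T;T⁻¹])) hX hP
  refine ⟨H, iR, iA, ⟨⟨t, h1, ?_⟩⟩⟩
  intro i
  have h3 : t (cs.simple i) * t (cs.simple i) =
    xi (L (cs.simple i)) • t (cs.simple i) + 1 := h2 i
  have e5 : (T (-(L (cs.simple i) : ℤ)) : ℤ[T;T⁻¹]) * T (L (cs.simple i) : ℤ) = 1 := by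
    rw [← T_add, neg_add_cancel, T_zero]
  rw [add_mul, mul_sub, mul_sub, h3, mul_smul_comm, mul_one, smul_mul_assoc, one_mul,
    smul_mul_smul_comm, one_mul, e5, one_smul]
  unfold xi
  rw [sub_smul]
  abel

end Pool.Agent.Helper64.RA
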